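import Pool.Agent.Helper75.Zss.Conv
import Pool.Agent.Helper75.Zss.All

/-!
# Generalized Tate conjecture for Fermat hypersurfaces

Let `X` be the Fermat hypersurface `x_0^m + ... + x_(n+1)^m = 0` over a finite field `F` of
characteristic `p ≡ 1 mod m`, with `q` elements, and let `χ` be a character of `F^*` of order `m`.
The primitive cohomology of `X` in degree `n` is the sum of lines `V(a)`, where `a` runs over
`Idx m n`, and Frobenius acts on `V(a)` by `(-1)^n` times the Jacobi sum `jacobi m n χ a` (Weil).
So `Idx m n → ℂ` with the operator `frob m n χ` is a model of it.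

If `b` splits into `ν + 1` zero-sum parts then `V(b)` is supported on a union of joins, of
codimension `ν`. If `a` and `b` are linked then an algebraic correspondence maps `V(b)` onto `V(a)`:
for one pair relation this is the isogeny of two factors of Jacobians of Fermat curves together
with the inductive structure of Fermat hypersurfaces. So the lines that span `linkConiveau` are in
the geometric coniveau filtration, for all `m`, `n` and `ν`.
-/

namespace Pool.Agent.Results.MP_8abef2_ag.FermatConiveau

open Finset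

/-- The characters that occur in the primitive cohomology of the Fermat hypersurface of degree `m`
and dimension `n`: `n + 2` nonzero residues mod `m` with sum zero. -/
def Idx (m n : ℕ) : Type := {a : Fin (n + 2) → ZMod m // (∀ i, a i ≠ 0) ∧ ∑ i, a i = 0}

section

variable {F : Type} [Field F] [Fintype F] [DecidableEq F]

/-- The Jacobi sum `(q - 1)⁻¹ ∑ ∏ χ^(a_i) (u_i)`, the sum over all `u` with `∑ u_i = 0`. -/
noncomputable def jacobi (m n : ℕ) (χ : MulChar F ℂ) (a : Fin (n + 2) → ZMod m) : ℂ :=
  (∑ u : Fin (n + 2) → F with ∑ i, u i = 0, ∏ i, (χ ^ (a i).val) (u i)) /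
    ((Fintype.card F : ℂ) - 1)

/-- Frobenius: multiplication by `(-1)^n` times the Jacobi sum on the line of `a`. -/
noncomputable def frob (m n : ℕ) (χ : MulChar F ℂ) : (Idx m n → ℂ) →ₗ[ℂ] (Idx m n → ℂ) where
  toFun f a := (-1) ^ n * jacobi m n χ a.1 * f a
  map_add' f g := by
    funext a
    simp only [Pi.add_apply]
    ring
  map_smul' c f := by
    funext a
    simp only [Pi.smul_apply, smul_eq_mul, RingHom.id_apply]
    ring

/-- `W` is a subrepresentation (stable under Frobenius) and `W(ν)` is effective of weight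
`n - 2 ν`: for every eigenvalue `β` of Frobenius on `W` both `β / q^ν` and `q^(n-ν) / β` are
algebraic integers. -/
def IsEffective (m n ν : ℕ) (χ : MulChar F ℂ) (W : Submodule ℂ (Idx m n → ℂ)) : Prop :=
  (∀ f ∈ W, frob m n χ f ∈ W) ∧
  ∀ β : ℂ, (∃ f ∈ W, f ≠ 0 ∧ frob m n χ f = β • f) →
    IsIntegral ℤ (β / (Fintype.card F : ℂ) ^ ν) ∧
    IsIntegral ℤ ((Fintype.card F : ℂ) ^ n / ((Fintype.card F : ℂ) ^ ν * β))

/-- The Galois coniveau: the span of all subrepresentations `W` with `W(ν)` effective. -/
noncomputable def galoisConiveau (m n ν : ℕ) (χ : MulChar F ℂ) : Submodule ℂ (Idx m n → ℂ) :=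
  sSup {W | IsEffective m n ν χ W}

end

/-- The indices of `a` split into `ν + 1` nonempty parts on each of which `a` has sum zero. -/
def Splits {m n : ℕ} (a : Fin (n + 2) → ZMod m) (ν : ℕ) : Prop :=
  ∃ P : Fin (n + 2) → Fin (ν + 1), Function.Surjective P ∧ ∀ k, ∑ i with P i = k, a i = 0

/-- The indicator function of `x`. -/
def ind {m : ℕ} (x : ZMod m) : ZMod m → ℤ := Pi.single x 1

/-- The pair relations `x + y = z + w`, between nonzero residues with
`⟨tx⟩ + ⟨ty⟩ = ⟨tz⟩ + ⟨tw⟩` for all units `t` of `Z/m`, where `⟨ ⟩` is the least nonnegative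
residue. -/
def pairRelations (m : ℕ) : Set (ZMod m → ℤ) :=
  {v | ∃ x y z w : ZMod m, x ≠ 0 ∧ y ≠ 0 ∧ z ≠ 0 ∧ w ≠ 0 ∧
    (∀ t : ZMod m, IsUnit t → (t * x).val + (t * y).val = (t * z).val + (t * w).val) ∧
    v = ind x + ind y - ind z - ind w}

/-- `a` and `b` are linked: their multiplicity functions differ by a sum of pair relations. -/
def Linked {m n : ℕ} (a b : Fin (n + 2) → ZMod m) : Prop :=
  ∑ i, ind (a i) - ∑ i, ind (b i) ∈ AddSubgroup.closure (pairRelations m)

/-- The span of the lines of those `a` that are linked to a `b` that splits into `ν + 1` zero-sum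
parts. -/
def linkConiveau (m n ν : ℕ) : Submodule ℂ (Idx m n → ℂ) where
  carrier := {f | ∀ a, f a ≠ 0 → ∃ b : Idx m n, Linked a.1 b.1 ∧ Splits b.1 ν}
  add_mem' := by
    intro f g hf hg a ha
    by_cases h : f a = 0
    · apply hg a
      intro h'
      exact ha (by rw [Pi.add_apply, h, h', add_zero])
    · exact hf a h
  zero_mem' := by
    intro a ha
    exact absurd rfl ha
  smul_mem' := by
    intro c f hf a ha
    apply hf a
    intro h
    exact ha (by rw [Pi.smul_apply, h, smul_zero])

section

variable {F : Type} [Field F] [Fintype F] [DecidableEq F] {m n ν : ℕ}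

theorem frob_apply (χ : MulChar F ℂ) (f : Idx m n → ℂ) (a : Idx m n) :
    frob m n χ f a = (-1) ^ n * jacobi m n χ a.1 * f a := rfl

theorem aeval_apply (χ : MulChar F ℂ) (P : Polynomial ℂ) (f : Idx m n → ℂ) (a : Idx m n) :
    (Polynomial.aeval (frob m n χ) P f) a =
      P.eval ((-1) ^ n * jacobi m n χ a.1) * f a := by
  induction P using Polynomial.induction_on' with
  | add P Q hP hQ =>
    rw [map_add, LinearMap.add_apply, Pi.add_apply, hP, hQ, Polynomial.eval_add, add_mul]
  | monomial k c =>
    rw [Polynomial.aeval_monomial, Polynomial.eval_monomial]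
    have : ∀ k, ((frob m n χ ^ k) f) a = ((-1) ^ n * jacobi m n χ a.1) ^ k * f a := by
      intro k
      induction k with
      | zero => simp
      | succ k ih =>
        rw [pow_succ', Module.End.mul_apply, frob_apply, ih, pow_succ]
        ring
    rw [Module.algebraMap_end_eq_smul_id, Module.End.mul_apply, LinearMap.smul_apply,
      LinearMap.id_apply, Pi.smul_apply, this k, smul_eq_mul]
    ring

theorem aeval_mem (χ : MulChar F ℂ) {W : Submodule ℂ (Idx m n → ℂ)}
    (hW : ∀ f ∈ W, frob m n χ f ∈ W) (P : Polynomial ℂ) {f : Idx m n → ℂ} (hf : f ∈ W) :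
    Polynomial.aeval (frob m n χ) P f ∈ W := by
  induction P using Polynomial.induction_on' with
  | add P Q hP hQ =>
    rw [map_add, LinearMap.add_apply]
    exact W.add_mem hP hQ
  | monomial k c =>
    rw [Polynomial.aeval_monomial, Module.algebraMap_end_eq_smul_id, Module.End.mul_apply,
      LinearMap.smul_apply, LinearMap.id_apply]
    apply W.smul_mem
    induction k with
    | zero => simpa using hf
    | succ k ih =>
      rw [pow_succ', Module.End.mul_apply]
      exact hW _ ih

end

/-- Let `m ≥ 2` and let `ν m ≤ 2 n + 1`, or `m ≤ 20` and `m ≠ 11, 13, 17, 19`. Let `F` be a finite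
field of characteristic `≡ 1 mod m` and `χ` a character of order `m` of `F`. Then the Galois
coniveau is spanned by the lines of the characters that are linked to one that splits into `ν + 1`
zero-sum parts. -/
theorem result (m n ν : ℕ) (hm2 : 2 ≤ m)
    (hm : ν * m ≤ 2 * n + 1 ∨ (m ≤ 20 ∧ m ≠ 11 ∧ m ≠ 13 ∧ m ≠ 17 ∧ m ≠ 19))
    (F : Type) [Field F] [Fintype F] [DecidableEq F] (hF : ringChar F % m = 1)
    (χ : MulChar F ℂ) (hχ : orderOf χ = m) :
    galoisConiveau m n ν χ = linkConiveau m n ν := by
  have hm0 : m ≠ 0 := by omega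
  have : NeZero m := ⟨hm0⟩
  have hq : (Fintype.card F : ℂ) ≠ 0 := Helper75.Zss.card_ne_zero'
  have hjac : ∀ a : Fin (n + 2) → ZMod m, jacobi m n χ a = Helper75.Zss.jac χ a := fun _ => rfl
  have hε : ((-1 : ℂ) ^ n) * ((-1 : ℂ) ^ n) = 1 := by
    rw [← mul_pow]
    simp
  have hε' : IsIntegral ℤ ((-1 : ℂ) ^ n) := (isIntegral_one.neg).pow n
  have hp : Fact (ringChar F).Prime := ⟨CharP.char_is_prime F _⟩
  have hmp : m ∣ ringChar F - 1 := by
    rw [← hF]
    exact Nat.dvd_sub_mod _
  apply le_antisymm
  · -- the Galois coniveau is in the span of the linked lines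
    apply sSup_le
    intro W hW f hf a ha
    -- project `f` to the eigenspace of the eigenvalue of `a`
    have hfin : Finite (Idx m n) := by
      unfold Idx
      infer_instance
    set lam : Idx m n → ℂ := fun b => (-1) ^ n * jacobi m n χ b.1 with hlam
    have hS : (Set.range lam).Finite := Set.finite_range lam
    set P : Polynomial ℂ := ∏ μ ∈ hS.toFinset.erase (lam a), (Polynomial.X - Polynomial.C μ)
      with hP
    have hPa : P.eval (lam a) ≠ 0 := by
      rw [hP, Polynomial.eval_prod, prod_ne_zero_iff]
      intro μ hμ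
      rw [Polynomial.eval_sub, Polynomial.eval_X, Polynomial.eval_C, sub_ne_zero]
      exact (ne_of_mem_erase hμ).symm
    have hPb : ∀ b, lam b ≠ lam a → P.eval (lam b) = 0 := by
      intro b hb
      rw [hP, Polynomial.eval_prod]
      apply prod_eq_zero (i := lam b)
      · rw [mem_erase]
        exact ⟨hb, by rw [Set.Finite.mem_toFinset]; exact ⟨b, rfl⟩⟩
      · rw [Polynomial.eval_sub, Polynomial.eval_X, Polynomial.eval_C, sub_self]
    set g := Polynomial.aeval (frob m n χ) P f with hg
    have hgW : g ∈ W := aeval_mem χ hW.1 P hf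
    have hga : g a ≠ 0 := by
      rw [hg, aeval_apply]
      exact mul_ne_zero hPa ha
    have hgeig : frob m n χ g = lam a • g := by
      funext b
      rw [frob_apply, Pi.smul_apply, smul_eq_mul]
      by_cases hb : lam b = lam a
      · rw [← hb]
      · have : g b = 0 := by
          rw [hg, aeval_apply]
          have := hPb b hb
          rw [hlam] at this
          rw [this, zero_mul]
        rw [this, mul_zero, mul_zero]
    have h1 := (hW.2 (lam a) ⟨g, hgW, fun h => hga (by rw [h]; rfl), hgeig⟩).1
    have h2 : IsIntegral ℤ (Helper75.Zss.jac χ a.1 / (Fintype.card F : ℂ) ^ ν) := by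
      have h3 := hε'.mul h1
      have h4 : (-1 : ℂ) ^ n * (lam a / (Fintype.card F : ℂ) ^ ν) =
          Helper75.Zss.jac χ a.1 / (Fintype.card F : ℂ) ^ ν := by
        rw [hlam, ← hjac]
        field_simp
        linear_combination (jacobi m n χ a.1) * hε
      rwa [h4] at h3
    rcases hm with hm | hm
    · refine ⟨a, ?_, Helper75.Zss.split_of_integral (p := ringChar F) hmp (by omega) a.2.1 a.2.2
        hχ h2⟩
      unfold Linked
      rw [sub_self]
      exact AddSubgroup.zero_mem _
    · have hdeg : m ∈ Helper75.Poly.degs := by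
        obtain ⟨h1, h11, h13, h17, h19⟩ := hm
        unfold Helper75.Poly.degs
        simp only [List.mem_cons, List.not_mem_nil, or_false]
        omega
      obtain ⟨b, hb1, hb2, hb3, hb4⟩ := Helper75.Poly.exists_twin hdeg a.2.1 a.2.2
        (fun t ht => Helper75.Zss.le_sum_val (p := ringChar F) hmp a.2.1 a.2.2 hχ h2 ht)
      exact ⟨⟨b, hb1, hb2⟩, hb3, hb4⟩
  · -- the span of the linked lines is effective
    apply le_sSup
    refine ⟨?_, ?_⟩
    · intro f hf a ha
      apply hf a
      intro h
      exact ha (by rw [frob_apply, h, mul_zero])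
    · rintro β ⟨f, hf, hf0, hfβ⟩
      obtain ⟨a, ha⟩ := Function.ne_iff.1 hf0
      have ha' : f a ≠ 0 := ha
      have h1 : (-1) ^ n * jacobi m n χ a.1 = β := by
        have := congrFun hfβ a
        rw [frob_apply, Pi.smul_apply, smul_eq_mul] at this
        exact mul_right_cancel₀ ha' this
      obtain ⟨b, hab, P, hP, hPs⟩ := hf a ha'
      have h3 := Helper75.Zss.jac_integral hχ b.2.1 b.2.2 P hP hPs
      have h2 : IsIntegral ℤ (Helper75.Zss.jac χ a.1 / (Fintype.card F : ℂ) ^ ν) := by
        apply Helper75.Zss.integral_of_le (p := ringChar F) hmp a.2.1 a.2.2 hχ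
        intro t ht
        rw [Helper75.Poly.same_of_linked hab ht]
        exact Helper75.Zss.le_sum_val (p := ringChar F) hmp b.2.1 b.2.2 hχ h3 ht
      rw [← h1, hjac]
      refine ⟨?_, Helper75.Zss.dual_integral hχ a.2.1 a.2.2 hε hε' h2⟩
      rw [mul_div_assoc]
      exact hε'.mul h2

end Pool.Agent.Results.MP_8abef2_ag.FermatConiveau
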